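import Mathlib
import Pool.Agent.Y961.OM.Lib

/-!
# Open multiplication fails for all Banach algebras with a certain semisimple quotient

The weighted `ℓ¹` algebra of the semilattice of all finite subsets of a countable set of the
starting file MP_9cb16a_an.MultiplicationNotOpen is separable and semisimple, and no normed algebra,
commutative or not, that has it as a quotient has open multiplication; the same holds for products
of any number of factors.
-/

set_option autoImplicit false

namespace Pool.Agent.Results.MP_9cb16a_an.SemisimpleQuotients

open Pool.Agent.Y961.OM TopologicalSpace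

/-- (1) There is a separable semisimple commutative unital Banach algebra `A` with zero-dimensional
maximal ideal space and linearly dense idempotents, and there are `a, b` in its unit ball such that
no `a b + κ`, `κ ≠ 0` a scalar, is the product of elements at distance less than `2 ^ (-23)` from
`a` and `b`. (2) If a normed algebra `B`, commutative or not, has a continuous homomorphism onto
`A`, then its multiplication is neither open nor uniformly open, and for no `n ≥ 2` is the product
of `n` factors an open map. (3) If `B` is any commutative unital Banach algebra with linearly dense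
idempotents, then `B × A` has zero-dimensional maximal ideal space and linearly dense idempotents,
is semisimple if `B` is, and its multiplication is neither open nor uniformly open, and for no
`n ≥ 2` is the product of `n` factors an open map. -/
theorem result :
    ∃ (A : Type) (_ : NormedCommRing A) (_ : NormedAlgebra ℂ A) (_ : CompleteSpace A),
      ‖(1 : A)‖ = 1 ∧ SeparableSpace A ∧ Semisimple A ∧ ZeroDim A ∧ DenseIdem A ∧
      (∃ a b : A, ‖a‖ ≤ 1 ∧ ‖b‖ ≤ 1 ∧ Bad a b ((1 / 2) ^ 23)) ∧
      (∀ (B : Type) [NormedRing B] [NormedAlgebra ℂ B] (π : B →ₐ[ℂ] A), Continuous π →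
        Function.Surjective π → ¬ OpenMul B ∧ ¬ UnifOpenMul B ∧ ∀ n, 2 ≤ n → ¬ OpenProd B n) ∧
      ∀ (B : Type) [NormedCommRing B] [NormedAlgebra ℂ B] [CompleteSpace B], DenseIdem B →
        ZeroDim (B × A) ∧ DenseIdem (B × A) ∧ (Semisimple B → Semisimple (B × A)) ∧
        ¬ OpenMul (B × A) ∧ ¬ UnifOpenMul (B × A) ∧ ∀ n, 2 ≤ n → ¬ OpenProd (B × A) n := by
  obtain ⟨A, iR, iA, iC, h1, hsep, hss, hd, a, b, ha, hb, hbad⟩ := exists_example
  have hε : (0 : ℝ) < (1 / 2) ^ 23 := by positivity
  refine ⟨A, iR, iA, iC, h1, hsep, hss, zero_dim hd, hd, ⟨a, b, ha, hb, hbad⟩, ?_, ?_⟩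
  · intro B _ _ π hπ hs
    exact ⟨not_openMul hε hbad π hπ hs, not_unif hε hbad π hπ hs, not_openProd hε hbad π hπ hs⟩
  · intro B _ _ _ hB
    have hs : Function.Surjective (AlgHom.snd ℂ B A) := fun x => ⟨(0, x), rfl⟩
    have hc : Continuous (AlgHom.snd ℂ B A) := continuous_snd
    have hp : DenseIdem (B × A) := dense_prod hB hd
    exact ⟨zero_dim hp, hp, fun h => semisimple_prod h hss, not_openMul hε hbad _ hc hs,
      not_unif hε hbad _ hc hs, not_openProd hε hbad _ hc hs⟩

end Pool.Agent.Results.MP_9cb16a_an.SemisimpleQuotients
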